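import Mathlib
import Pool.Agent.H17.Phi3

set_option autoImplicit false

namespace Pool.Agent.Results.MP_3af439_nt.Counter

theorem result : ∃ n : ℕ, 4 ≤ n ∧ ¬ n.Prime ∧
    n ∉ ({4, 6, 8, 9, 12, 16, 21, 65, 425, 1729, 3201, 3531, 22865} : Finset ℕ) ∧
    ((Finset.Icc 1 (n / 3)).filter (fun i => Nat.gcd i n = 1)).card ∣ n - 1 := by
  refine ⟨4125441, by norm_num, by norm_num, by decide, ?_⟩
  have h := Pool.Agent.H17.Phi3.count
  unfold Pool.Agent.H17.Phi3.C at h
  rw [h]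
  norm_num

end Pool.Agent.Results.MP_3af439_nt.Counter
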